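import Pool.Agent.H59.LIN.Targets

/-!
# The basic invariants `(0, t)` with `t ≥ 1`
-/

set_option autoImplicit false

open Finset Polynomial Pool.Agent.H59.LIN

namespace Pool.Agent.H74.LIN.FB0

theorem run_res {n : ℕ} (ε : ℕ → Bool) : ∀ (w : SWd n) (k : ℕ) (p : Fin (n + 1)),
    run (res k w ε) p = run w p
  | [], _, _ => rfl
  | (_, _) :: w, k, _ => by
    rw [res, run, run]
    exact run_res ε w (k + 1) _

theorem knot_res {n : ℕ} (w : SWd n) (hw : Knot w) (k : ℕ) (ε : ℕ → Bool) :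
    Knot (res k w ε) := by
  intro p
  obtain ⟨j, hj⟩ := hw p
  refine ⟨j, ?_⟩
  have h : run (res k w ε) = run w := funext fun p => run_res ε w k p
  rw [h]
  exact hj

section Dif

variable {α K : Type} [DecidableEq α] [CommRing K]

theorem dif_sum {ι : Type} (s : Finset ι) (F : ι → (α → Bool) → K) (A : Finset α)
    (ε : α → Bool) : Dif A (fun x => ∑ j ∈ s, F j x) ε = ∑ j ∈ s, Dif A (F j) ε := by
  unfold Dif
  rw [Finset.sum_comm]
  exact Finset.sum_congr rfl fun S _ => Finset.mul_sum _ _ _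

theorem dif_mul (c : K) (F : (α → Bool) → K) (A : Finset α) (ε : α → Bool) :
    Dif A (fun x => c * F x) ε = c * Dif A F ε := by
  unfold Dif
  rw [Finset.mul_sum]
  exact Finset.sum_congr rfl fun S _ => by ring

theorem dif_sub (F G : (α → Bool) → K) (A : Finset α) (ε : α → Bool) :
    Dif A (fun x => F x - G x) ε = Dif A F ε - Dif A G ε := by
  unfold Dif
  rw [← Finset.sum_sub_distrib]
  exact Finset.sum_congr rfl fun S _ => by ring

end Dif

/-- the rational set function -/
def cs {α : Type} (g : SF α ℤ) : SF α ℚ := fun A => ((g A : ℤ) : ℚ)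

theorem cs_pow {α : Type} [DecidableEq α] (g : SF α ℤ) : ∀ k : ℕ, cs (g ^ k) = (cs g) ^ k
  | 0 => by
    funext A
    rw [pow_zero, pow_zero]
    change (((1 : SF α ℤ) A : ℤ) : ℚ) = _
    rw [SF.one_def, SF.one_def]
    split_ifs <;> simp
  | k + 1 => by
    rw [pow_succ, pow_succ, ← cs_pow g k]
    funext A
    change (((g ^ k * g) A : ℤ) : ℚ) = _
    rw [SF.mul_def, SF.mul_def]
    push_cast
    rfl

theorem choose_mc (x : ℤ) (j : ℕ) : Ring.choose (x + ((j : ℤ) - 1)) j = Ring.multichoose x j := by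
  rw [Ring.choose]
  congr 1
  ring

end Pool.Agent.H74.LIN.FB0

namespace Pool.Agent.H74.LIN

open FB0

theorem pf_FB0 (hINT : Pool.Agent.H59.LIN.T_INT) (hSYM : Pool.Agent.H59.LIN.T_SYM)
    (hFB1 : Pool.Agent.H59.LIN.T_FB1) (hCAB : Pool.Agent.H59.LIN.T_CAB)
    (hCMC : Pool.Agent.H59.LIN.T_CMC) : Pool.Agent.H59.LIN.T_FB0 := by
  intro T hT t ht
  obtain ⟨k, hk⟩ : ∃ k, k = t + 1 := ⟨_, rfl⟩
  obtain ⟨f, hf⟩ : ∃ f : (n : ℕ) → Wd n → ℤ, f = fun n w =>
      (∑ j ∈ range (k + 1), 2 ^ j * (ec T j n w - Ring.multichoose (ec T 1 n w) j)) /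
        2 ^ (k + 1) := ⟨_, rfl⟩
  have hmb : mb (0, t) = 2 * k := by rw [mb, hk]; ring
  -- degrees of `ec`
  have hecdeg : ∀ (j n : ℕ) (w : SWd n) (d : ℕ) (s : Fin d → ℕ), Knot w →
      Function.Injective s → IsDb w s → ∀ (A : Finset (Fin d)) (ε : Fin d → Bool),
      2 * j < A.card → Dif A (cb (ec T j n) w s) ε = 0 := by
    intro j n w d s hw hs hd A ε hA
    have h1 : cb (ec T j n) w s = fun x => ∑ m ∈ range (2 * j + 1),
        cb (pc T m (2 * j - m) n) w s x := rfl
    rw [h1, dif_sum]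
    refine Finset.sum_eq_zero fun m hm => ?_
    rw [Finset.mem_range] at hm
    exact (hSYM T hT m (2 * j - m)).2.1 n w d s hw hs hd A ε (by omega)
  -- degrees of the binomial coefficients
  have hmc : ∀ (j n : ℕ) (w : SWd n) (d : ℕ) (s : Fin d → ℕ), Knot w →
      Function.Injective s → IsDb w s →
      Dg (fun x => Ring.multichoose (cb (ec T 1 n) w s x) j) (2 * j) ∧
      ∀ A, (j.factorial : ℤ) * sy (fun x => Ring.multichoose (cb (ec T 1 n) w s x) j) (2 * j) A
        = ((sy (cb (ec T 1 n) w s) 2) ^ j) A := by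
    intro j n w d s hw hs hd
    have h1 := hCAB (Fin d) (cb (ec T 1 n) w s) 2 ((j : ℤ) - 1) j (by norm_num)
      (fun A ε hA => hecdeg 1 n w d s hw hs hd A ε (by omega))
    simp only [choose_mc] at h1
    exact h1
  -- the main identity
  have hmain : ∀ (n : ℕ) (w : SWd n) (d : ℕ) (s : Fin d → ℕ), Knot w →
      ∀ (A : Finset (Fin d)) (ε : Fin d → Bool), 2 ^ (k + 1) * Dif A (cb (f n) w s) ε =
        ∑ j ∈ range (k + 1), 2 ^ j * (Dif A (cb (ec T j n) w s) ε -
          Dif A (fun x => Ring.multichoose (cb (ec T 1 n) w s x) j) ε) := by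
    intro n w d s hw A ε
    rw [← dif_mul]
    have h1 : (fun x => 2 ^ (k + 1) * cb (f n) w s x) = fun x => ∑ j ∈ range (k + 1),
        2 ^ j * (cb (ec T j n) w s x - Ring.multichoose (cb (ec T 1 n) w s x) j) := by
      funext x
      rw [hf]
      exact Int.mul_ediv_cancel' (hINT T hT n _ (knot_res w hw 0 _) k)
    rw [h1, dif_sum]
    refine Finset.sum_congr rfl fun j _ => ?_
    rw [dif_mul, dif_sub]
  refine ⟨f, ?_, ?_, ?_⟩
  · intro x y hxy hx
    have h1 : ∀ j, ec T j x.1 x.2 = ec T j y.1 y.2 := by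
      intro j
      refine Finset.sum_congr rfl fun m _ => ?_
      exact (hSYM T hT m (2 * j - m)).1 x y hxy hx
    rw [hf]
    simp only [h1]
  · intro n w d s hw hs hd A ε hA
    rw [hmb] at hA
    have h1 := hmain n w d s hw A ε
    rw [Finset.sum_eq_zero] at h1
    · have h2 : (2 : ℤ) ^ (k + 1) ≠ 0 := by positivity
      exact (mul_eq_zero.1 h1).resolve_left h2
    · intro j hj
      rw [Finset.mem_range] at hj
      rw [hecdeg j n w d s hw hs hd A ε (by omega), (hmc j n w d s hw hs hd).1 A ε (by omega)]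
      ring
  · intro n w d D s hw hs hg A
    have hd : IsDb w s := hCMC.1 n w d D s hw hs hg
    have hD2 : cs (sy (cb (ec T 1 n) w s) 2) = eta D 2 0 := by
      funext B
      have h1 := (hFB1 T hT).2.2.2 n w d D s hw hs hg B
      have h2 : phi D (0, 0) = eta D 2 0 := by simp [phi]
      have h3 : mb (0, 0) = 2 := rfl
      rw [h2, h3] at h1
      exact h1
    have hphi : phi D (0, t) A = (1 / 2 : ℚ) * (eta D (2 * k) 0 A -
        ((k.factorial : ℚ)⁻¹ * ((eta D 2 0) ^ k) A)) := by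
      have h1 : phi D (0, t) = (1 / 2 : ℚ) • (eta D (2 * t + 2) 0 -
          (((t + 1).factorial : ℚ)⁻¹ • (eta D 2 0) ^ (t + 1))) := by
        rw [phi, if_pos rfl, if_neg (by simpa using (by omega : t ≠ 0))]
      have h2 : 2 * t + 2 = 2 * k := by omega
      rw [h1, h2, ← hk, SF.smul_def']
      congr 1
      change _ - ((k.factorial : ℚ)⁻¹ • (eta D 2 0) ^ k) A = _
      rw [SF.smul_def']
    -- the symbol of `ec T k`
    have hec : ((sy (cb (ec T k n) w s) (2 * k) A : ℤ) : ℚ) = eta D (2 * k) 0 A := by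
      rw [← (hSYM T hT (2 * k) 0).2.2 n w d D s hw hs hg A]
      congr 1
      unfold sy
      split_ifs with hc
      · have h1 : cb (ec T k n) w s = fun x => ∑ m ∈ range (2 * k + 1),
            cb (pc T m (2 * k - m) n) w s x := rfl
        rw [h1, dif_sum, Finset.sum_range_succ, Finset.sum_eq_zero, zero_add, Nat.sub_self]
        intro m hm
        rw [Finset.mem_range] at hm
        exact (hSYM T hT m (2 * k - m)).2.1 n w d s hw hs hd A _ (by omega)
      · rfl
    have hsy : (2 : ℤ) ^ (k + 1) * sy (cb (f n) w s) (2 * k) A = 2 ^ k *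
        (sy (cb (ec T k n) w s) (2 * k) A -
          sy (fun x => Ring.multichoose (cb (ec T 1 n) w s x) k) (2 * k) A) := by
      unfold sy
      split_ifs with hc
      · rw [hmain n w d s hw A _, Finset.sum_range_succ, Finset.sum_eq_zero, zero_add]
        intro j hj
        rw [Finset.mem_range] at hj
        rw [hecdeg j n w d s hw hs hd A _ (by omega), (hmc j n w d s hw hs hd).1 A _ (by omega)]
        ring
      · ring
    have hb : ((k.factorial : ℤ) : ℚ) *
        ((sy (fun x => Ring.multichoose (cb (ec T 1 n) w s x) k) (2 * k) A : ℤ) : ℚ)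
        = ((eta D 2 0) ^ k) A := by
      rw [← hD2, ← cs_pow]
      change _ = ((((sy (cb (ec T 1 n) w s) 2) ^ k) A : ℤ) : ℚ)
      rw [← (hmc k n w d s hw hs hd).2 A]
      push_cast
      rfl
    have hk0 : ((k.factorial : ℤ) : ℚ) ≠ 0 := by
      exact_mod_cast k.factorial_ne_zero
    rw [hmb, hphi, ← hb, ← hec]
    have h3 : ((2 : ℤ) ^ (k + 1) * sy (cb (f n) w s) (2 * k) A : ℤ) = ((2 ^ k *
        (sy (cb (ec T k n) w s) (2 * k) A -
          sy (fun x => Ring.multichoose (cb (ec T 1 n) w s x) k) (2 * k) A) : ℤ) : ℚ) := by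
      rw [hsy]
    push_cast at h3
    have h4 : (2 : ℚ) ^ k ≠ 0 := by positivity
    have h5 : (k.factorial : ℚ) ≠ 0 := by exact_mod_cast k.factorial_ne_zero
    have h6 : 2 * ((sy (cb (f n) w s) (2 * k) A : ℤ) : ℚ) =
        ((sy (cb (ec T k n) w s) (2 * k) A : ℤ) : ℚ) -
          ((sy (fun x => Ring.multichoose (cb (ec T 1 n) w s x) k) (2 * k) A : ℤ) : ℚ) := by
      have h7 : (2 : ℚ) ^ k * (2 * ((sy (cb (f n) w s) (2 * k) A : ℤ) : ℚ)) = 2 ^ k *
          (((sy (cb (ec T k n) w s) (2 * k) A : ℤ) : ℚ) -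
          ((sy (fun x => Ring.multichoose (cb (ec T 1 n) w s x) k) (2 * k) A : ℤ) : ℚ)) := by
        rw [← h3, pow_succ]
        ring
      exact mul_left_cancel₀ h4 h7
    push_cast
    rw [inv_mul_cancel_left₀ h5]
    linarith

end Pool.Agent.H74.LIN
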